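import Pool.Agent.Q186.ME.Main

/-!
# MP_0a131d_gt: both questions are answered affirmatively

`C r` is the optimal subgraph entropy constant of finite connected metric graphs of rank `r`
(definitions in `Pool.Agent.Q186.ME.Defs`).  We prove `C r ≥ 1/4` and `C r ≥ 1 - 2/(r-1)` for all
`r ≥ 3`, so that `inf_{r ≥ 3} C r > 0` and `C r → 1`.
-/

namespace Pool.Agent.Results.MP_0a131d_gt.EntropyConstant

open Filter Topology Q186.ME

theorem result :
    -- sanity: the entropy (defined as a limsup) is a limit, for every subgraph of a finite graph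
    (∀ (V E : Type) [Fintype V] [Fintype E] (G : MGraph V E) (H : G.Subgraph),
      Tendsto (fun t : ℝ => Real.log ((H.circuits t).ncard : ℝ) / t) atTop (𝓝 H.entropy)) ∧
    -- sanity: `maxProper` is the maximum of the entropies of the proper subgraphs
    (∀ (V E : Type) [Nonempty V] [Fintype V] [Fintype E] (G : MGraph V E),
      IsGreatest {x : ℝ | ∃ H : G.Subgraph, H ≠ G.whole ∧ x = H.entropy} G.maxProper) ∧
    -- sanity: there are metric graphs of every rank `r ≥ 3` with entropy one
    (∀ r : ℕ, 3 ≤ r → (values r).Nonempty) ∧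
    -- explicit bounds
    (∀ r : ℕ, 3 ≤ r → 1 / 4 ≤ C r ∧ 1 - 2 / ((r : ℝ) - 1) ≤ C r ∧ C r ≤ 1) ∧
    -- Q1
    0 < sInf (C '' {r : ℕ | 3 ≤ r}) ∧
    -- Q2
    Tendsto C atTop (𝓝 1) :=
  ⟨fun _ _ _ _ _ H => MGraph.tendsto_entropy H,
    fun _ _ _ _ _ _ => MGraph.isGreatest_maxProper,
    fun r hr => values_nonempty r (by omega),
    fun r hr => ⟨quarter_le_C r hr, lower_C r hr, C_le_one r (by omega)⟩,
    lt_of_lt_of_le (by norm_num) inf_C_pos, tendsto_C⟩

end Pool.Agent.Results.MP_0a131d_gt.EntropyConstant
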